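import Pool.Agent.W203.BE.Stms

set_option autoImplicit false

open MeasureTheory Set Complex
open scoped ENNReal

namespace Pool.Agent.W345.BE

open Pool.Agent.W203.BE

variable {n : ℕ}

theorem gn_cont (h : S_BAS) (α : Fin n → ℂ) (hα : ∀ j, 0 < (α j).re) : Continuous (gn α) := by
  unfold gn
  exact continuous_finsetProd _ fun j _ => ((h (α j) (hα j)).1).comp (continuous_apply j)

theorem gn_int (h : S_BAS) (α : Fin n → ℂ) (hα : ∀ j, 0 < (α j).re) : Integrable (gn α) := by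
  have := MeasureTheory.Integrable.fintype_prod (μ := fun _ : Fin n => (volume : Measure ℝ))
    (f := fun j => g1 (α j)) (fun j => (h (α j) (hα j)).2.1)
  exact this

theorem gn_bdd (h : S_BAS) (α : Fin n → ℂ) (hα : ∀ j, 0 < (α j).re) :
    ∃ C : ℝ, ∀ x, ‖gn α x‖ ≤ C := by
  refine ⟨∏ j, Real.sqrt (Real.pi / ‖α j‖), fun x => ?_⟩
  rw [gn, norm_prod]
  refine Finset.prod_le_prod (fun j _ => norm_nonneg _) fun j _ => ?_
  rw [(h (α j) (hα j)).2.2.1]
  have h1 : Real.exp (-(Real.pi ^ 2 * (α j).re / ‖α j‖ ^ 2 * x j ^ 2)) ≤ 1 := by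
    rw [Real.exp_le_one_iff]
    have : 0 ≤ Real.pi ^ 2 * (α j).re / ‖α j‖ ^ 2 * x j ^ 2 := by
      have := (hα j).le
      positivity
    linarith
  exact mul_le_of_le_one_right (Real.sqrt_nonneg _) h1

/-- the integrand of the Fourier representation is a product -/
theorem ker_prod (α : Fin n → ℂ) (x ξ : Fin n → ℝ) :
    cexp (-(∑ j, α j * (ξ j : ℂ) ^ 2)) * cexp (2 * (Real.pi : ℂ) * I * ((∑ j, x j * ξ j : ℝ) : ℂ)) =
      ∏ j, (cexp (-(α j * (ξ j : ℂ) ^ 2)) *
        cexp (2 * (Real.pi : ℂ) * I * ((x j * ξ j : ℝ) : ℂ))) := by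
  rw [Finset.prod_mul_distrib, ← Complex.exp_sum, ← Complex.exp_sum]
  congr 1
  · rw [Finset.sum_neg_distrib]
  · rw [← Finset.mul_sum]
    push_cast
    rfl

theorem gn_rep (h : S_BAS) (α : Fin n → ℂ) (hα : ∀ j, 0 < (α j).re) (x : Fin n → ℝ) :
    gn α x = ∫ ξ : Fin n → ℝ, cexp (-(∑ j, α j * (ξ j : ℂ) ^ 2)) *
      cexp (2 * (Real.pi : ℂ) * I * ((∑ j, x j * ξ j : ℝ) : ℂ)) := by
  simp_rw [ker_prod α x]
  rw [integral_fintype_prod_volume_eq_prod (fun j (ξ : ℝ) => cexp (-(α j * (ξ : ℂ) ^ 2)) *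
        cexp (2 * (Real.pi : ℂ) * I * ((x j * ξ : ℝ) : ℂ)))]
  rw [gn]
  exact Finset.prod_congr rfl fun j _ => ((h (α j) (hα j)).2.2.2.2.1 (x j)).2

theorem ker_int (h : S_BAS) (α : Fin n → ℂ) (hα : ∀ j, 0 < (α j).re) :
    Integrable (fun ξ : Fin n → ℝ => cexp (-(∑ j, α j * (ξ j : ℂ) ^ 2))) := by
  have h1 := MeasureTheory.Integrable.fintype_prod (μ := fun _ : Fin n => (volume : Measure ℝ))
    (f := fun j (ξ : ℝ) => cexp (-(α j * (ξ : ℂ) ^ 2))) (fun j => by
      have := ((h (α j) (hα j)).2.2.2.2.1 0).1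
      simpa using this)
  have h2 : (fun ξ : Fin n → ℝ => cexp (-(∑ j, α j * (ξ j : ℂ) ^ 2))) =
      fun ξ => ∏ j, cexp (-(α j * (ξ j : ℂ) ^ 2)) := by
    funext ξ
    rw [← Complex.exp_sum, Finset.sum_neg_distrib]
  rw [h2]
  exact h1

theorem norm_e (t : ℝ) : ‖cexp (2 * (Real.pi : ℂ) * I * ((t : ℝ) : ℂ))‖ = 1 := by
  rw [show (2 * (Real.pi : ℂ) * I * ((t : ℝ) : ℂ)) = ((2 * Real.pi * t : ℝ) : ℂ) * I by
    push_cast; ring]
  exact Complex.norm_exp_ofReal_mul_I _

theorem mul_int (h : S_BAS) (α : Fin n → ℂ) (hα : ∀ j, 0 < (α j).re) (f : (Fin n → ℝ) → ℂ)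
    (hf : Integrable f) (x : Fin n → ℝ) : Integrable (fun y => gn α (x - y) * f y) := by
  obtain ⟨C, hC⟩ := gn_bdd h α hα
  exact hf.bdd_mul ((gn_cont h α hα).comp (continuous_const.sub continuous_id)).aestronglyMeasurable
    (Filter.Eventually.of_forall fun y => hC _)

theorem T_cont (h : S_BAS) (α : Fin n → ℂ) (hα : ∀ j, 0 < (α j).re) (f : (Fin n → ℝ) → ℂ)
    (hf : Integrable f) : Continuous (T α f) := by
  obtain ⟨C, hC⟩ := gn_bdd h α hα
  refine continuous_of_dominated (F := fun x y => gn α (x - y) * f y)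
    (bound := fun y => C * ‖f y‖) (fun x => (mul_int h α hα f hf x).aestronglyMeasurable)
    (fun x => Filter.Eventually.of_forall fun y => ?_) (hf.norm.const_mul C)
    (Filter.Eventually.of_forall fun y => ?_)
  · rw [norm_mul]
    exact mul_le_mul_of_nonneg_right (hC _) (norm_nonneg _)
  · exact ((gn_cont h α hα).comp (continuous_id.sub continuous_const)).mul continuous_const

/-- the integrand of the convolution is integrable on the product -/
theorem conv_int (h : S_BAS) (α : Fin n → ℂ) (hα : ∀ j, 0 < (α j).re) (f : (Fin n → ℝ) → ℂ)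
    (hf : Integrable f) :
    Integrable (fun p : (Fin n → ℝ) × (Fin n → ℝ) => gn α (p.1 - p.2) * f p.2)
      (volume.prod volume) := by
  have := Integrable.convolution_integrand (ContinuousLinearMap.mul ℝ ℂ) hf (gn_int h α hα)
    (μ := volume) (ν := volume)
  refine this.congr (Filter.Eventually.of_forall fun p => ?_)
  simp [mul_comm]

theorem T_int (h : S_BAS) (α : Fin n → ℂ) (hα : ∀ j, 0 < (α j).re) (f : (Fin n → ℝ) → ℂ)
    (hf : Integrable f) : Integrable (T α f) :=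
  (conv_int h α hα f hf).integral_prod_left

theorem T_rep (h : S_BAS) (α : Fin n → ℂ) (hα : ∀ j, 0 < (α j).re) (f : (Fin n → ℝ) → ℂ)
    (hf : Integrable f) (x : Fin n → ℝ) :
    T α f x = ∫ ξ : Fin n → ℝ, cexp (-(∑ j, α j * (ξ j : ℂ) ^ 2)) *
      (∫ y : Fin n → ℝ, cexp (-(2 * (Real.pi : ℂ) * I * ((∑ j, y j * ξ j : ℝ) : ℂ))) * f y) *
      cexp (2 * (Real.pi : ℂ) * I * ((∑ j, x j * ξ j : ℝ) : ℂ)) := by
  have h1 : T α f x = ∫ y, ∫ ξ : Fin n → ℝ, cexp (-(∑ j, α j * (ξ j : ℂ) ^ 2)) *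
      cexp (2 * (Real.pi : ℂ) * I * ((∑ j, (x - y) j * ξ j : ℝ) : ℂ)) * f y := by
    rw [T]
    refine integral_congr_ae (Filter.Eventually.of_forall fun y => ?_)
    change gn α (x - y) * f y = _
    rw [gn_rep h α hα, ← integral_mul_const]
  have h2 : Integrable (fun p : (Fin n → ℝ) × (Fin n → ℝ) =>
      cexp (-(∑ j, α j * (p.2 j : ℂ) ^ 2)) *
      cexp (2 * (Real.pi : ℂ) * I * ((∑ j, (x - p.1) j * p.2 j : ℝ) : ℂ)) * f p.1)
      (volume.prod volume) := by
    have h3 : Integrable (fun p : (Fin n → ℝ) × (Fin n → ℝ) =>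
        f p.1 * cexp (-(∑ j, α j * (p.2 j : ℂ) ^ 2))) (volume.prod volume) :=
      hf.mul_prod (ker_int h α hα)
    have h4 : Continuous (fun p : (Fin n → ℝ) × (Fin n → ℝ) =>
        cexp (2 * (Real.pi : ℂ) * I * ((∑ j, (x - p.1) j * p.2 j : ℝ) : ℂ))) := by
      refine Complex.continuous_exp.comp (continuous_const.mul (Complex.continuous_ofReal.comp ?_))
      refine continuous_finsetSum _ fun j _ => ?_
      exact ((continuous_apply j).comp (continuous_const.sub continuous_fst)).mul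
        ((continuous_apply j).comp continuous_snd)
    have h5 := h3.bdd_mul (c := 1) h4.aestronglyMeasurable
      (Filter.Eventually.of_forall fun p => (norm_e _).le)
    refine h5.congr (Filter.Eventually.of_forall fun p => ?_)
    simp only
    ring
  rw [h1, integral_integral_swap h2]
  refine integral_congr_ae (Filter.Eventually.of_forall fun ξ => ?_)
  simp only
  rw [← integral_const_mul, ← integral_mul_const]
  refine integral_congr_ae (Filter.Eventually.of_forall fun y => ?_)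
  simp only
  have h6 : cexp (2 * (Real.pi : ℂ) * I * ((∑ j, (x - y) j * ξ j : ℝ) : ℂ)) =
      cexp (-(2 * (Real.pi : ℂ) * I * ((∑ j, y j * ξ j : ℝ) : ℂ))) *
      cexp (2 * (Real.pi : ℂ) * I * ((∑ j, x j * ξ j : ℝ) : ℂ)) := by
    rw [← Complex.exp_add]
    congr 1
    have : (∑ j, (x - y) j * ξ j : ℝ) = (∑ j, x j * ξ j) - ∑ j, y j * ξ j := by
      rw [← Finset.sum_sub_distrib]
      refine Finset.sum_congr rfl fun j _ => ?_
      simp only [Pi.sub_apply]
      ring
    rw [this]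
    push_cast
    ring
  rw [h6]
  ring

theorem semi (h : S_BAS) (α β : Fin n → ℂ) (hα : ∀ j, 0 < (α j).re) (hβ : ∀ j, 0 < (β j).re)
    (x y : Fin n → ℝ) :
    ∫ z, gn β (x - z) * gn α (z - y) = gn (fun j => β j + α j) (x - y) := by
  have h1 : ∀ z : Fin n → ℝ, gn β (x - z) * gn α (z - y) =
      ∏ j, (g1 (β j) (x j - z j) * g1 (α j) (z j - y j)) := by
    intro z
    rw [gn, gn, ← Finset.prod_mul_distrib]
    rfl
  simp_rw [h1]
  rw [integral_fintype_prod_volume_eq_prod
    (fun j (t : ℝ) => g1 (β j) (x j - t) * g1 (α j) (t - y j))]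
  rw [gn]
  refine Finset.prod_congr rfl fun j _ => ?_
  have h2 := (h (β j) (hβ j)).2.2.2.2.2.2 (α j) (hα j) (x j - y j)
  rw [Pi.sub_apply, ← h2]
  rw [← integral_sub_right_eq_self (fun t : ℝ => g1 (β j) (x j - y j - t) * g1 (α j) t) (y j)]
  refine integral_congr_ae (Filter.Eventually.of_forall fun t => ?_)
  simp only
  rw [show x j - y j - (t - y j) = x j - t by ring]

theorem T_comp (h : S_BAS) (α β : Fin n → ℂ) (hα : ∀ j, 0 < (α j).re) (hβ : ∀ j, 0 < (β j).re)
    (f : (Fin n → ℝ) → ℂ) (hf : Integrable f) (x : Fin n → ℝ) :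
    T β (T α f) x = T (fun j => β j + α j) f x := by
  have h1 : T β (T α f) x = ∫ z, ∫ y, gn β (x - z) * (gn α (z - y) * f y) := by
    rw [T]
    refine integral_congr_ae (Filter.Eventually.of_forall fun z => ?_)
    simp only
    rw [T, ← integral_const_mul]
  have h2 : Integrable (fun p : (Fin n → ℝ) × (Fin n → ℝ) =>
      gn β (x - p.1) * (gn α (p.1 - p.2) * f p.2)) (volume.prod volume) := by
    obtain ⟨C, hC⟩ := gn_bdd h β hβ
    exact (conv_int h α hα f hf).bdd_mul
      ((gn_cont h β hβ).comp (continuous_const.sub continuous_fst)).aestronglyMeasurable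
      (Filter.Eventually.of_forall fun p => hC _)
  rw [h1, integral_integral_swap h2, T]
  refine integral_congr_ae (Filter.Eventually.of_forall fun y => ?_)
  simp only
  rw [← semi h α β hα hβ x y, ← integral_mul_const]
  refine integral_congr_ae (Filter.Eventually.of_forall fun z => ?_)
  simp only
  ring

theorem basn : S_BAS → S_BASN := by
  intro h n α hα
  exact ⟨gn_cont h α hα, gn_int h α hα, gn_bdd h α hα, gn_rep h α hα, fun f hf =>
    ⟨mul_int h α hα f hf, T_cont h α hα f hf, T_int h α hα f hf, T_rep h α hα f hf,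
      fun β hβ x => T_comp h α β hα hβ f hf x⟩⟩

end Pool.Agent.W345.BE
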